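import Pool.Agent.N334.CN.Nf
import Pool.Agent.H349R2.Tet.Final2

/-!
# Lattice packings of cones over planar convex bodies
-/

set_option autoImplicit false

namespace Pool.Agent.N334.CN

open MeasureTheory Pool.Agent.H349R2.Tet
open scoped ENNReal

theorem NF.perm {K : Set V} {P : Fin 3 → V} {r : V} (h : NF K P r) (σ : Equiv.Perm (Fin 3)) :
    NF ((fun x : V => (x ∘ σ : V)) '' K) (fun n => P (σ n) ∘ σ) (r ∘ σ) := by
  have hs : ∀ x : V, (x ∘ σ : V) 0 + (x ∘ σ : V) 1 + (x ∘ σ : V) 2 = x 0 + x 1 + x 2 := by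
    intro x
    have h1 := Equiv.sum_comp σ x
    rw [Fin.sum_univ_three, Fin.sum_univ_three] at h1
    exact h1
  refine
    { r0 := fun n => h.r0 _
      r1 := fun n => h.r1 _
      mem := fun n => ⟨P (σ n), h.mem _, rfl⟩
      unit := fun n => ⟨Pi.single (σ n) 1, h.unit _, ?_⟩
      sum := fun n => by rw [hs, h.sum]
      abs := fun n m => h.abs _ _
      diag := fun n => h.diag _
      pos := fun n m hmn => h.pos _ _ (fun e => hmn (σ.injective e))
      det := ?_
      cone := ?_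
      zero := ⟨0, h.zero, rfl⟩ }
  · funext m
    show (Pi.single (σ n) 1 : V) (σ m) = (Pi.single n 1 : V) m
    rw [Pi.single_apply, Pi.single_apply]
    simp only [σ.injective.eq_iff]
  · have h1 := Matrix.det_submatrix_equiv_self σ (Matrix.of P)
    have h2 : Matrix.det (fun n => P (σ n) ∘ σ) = Matrix.det ((Matrix.of P).submatrix σ σ) := rfl
    rw [h2, h1]
    exact h.det
  · rintro _ ⟨x, hx, rfl⟩
    obtain ⟨c1, c2, c3⟩ := h.cone x hx
    show 0 ≤ (x ∘ σ : V) 0 + (x ∘ σ : V) 1 + (x ∘ σ : V) 2 ∧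
      (x ∘ σ : V) 0 + (x ∘ σ : V) 1 + (x ∘ σ : V) 2 ≤ 1 ∧
      ∀ n, -((r ∘ σ) n * ((x ∘ σ : V) 0 + (x ∘ σ : V) 1 + (x ∘ σ : V) 2)) ≤ (x ∘ σ : V) n ∧
        (x ∘ σ : V) n ≤ (x ∘ σ : V) 0 + (x ∘ σ : V) 1 + (x ∘ σ : V) 2
    rw [hs]
    exact ⟨c1, c2, fun n => c3 (σ n)⟩

/-- the lattice with given basis packs -/
theorem packs_of (hDIS : S_DIS) {K : Set V} {P : Fin 3 → V} {r : V} (h : NF K P r)
    (b : Fin 3 → V) (hb : dt b ≠ 0)
    (hout : ∀ i j k : ℤ, ¬ (i = 0 ∧ j = 0 ∧ k = 0) →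
      Out r (fun n => (i : ℝ) * b 0 n + (j : ℝ) * b 1 n + (k : ℝ) * b 2 n)) : Packs K b := by
  rw [packs_iff]
  refine ⟨hb, ?_⟩
  rintro u ⟨z, hz⟩ hu ⟨x, hx, hxu⟩
  have hz0 : ¬ (z 0 = 0 ∧ z 1 = 0 ∧ z 2 = 0) := by
    rintro ⟨e0, e1, e2⟩
    apply hu
    rw [hz, Fin.sum_univ_three, e0, e1, e2]
    simp
  have h1 := hout _ _ _ hz0
  have h2 : (fun n => (z 0 : ℝ) * b 0 n + (z 1 : ℝ) * b 1 n + (z 2 : ℝ) * b 2 n) = u := by
    funext n
    rw [hz, Fin.sum_univ_three]
    simp only [Pi.add_apply, Pi.smul_apply, smul_eq_mul]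
  rw [h2] at h1
  have h3 := hDIS K r h.r0 h.cone u h1
  have h4 : interior ((fun x => x + u) '' K) = (fun x => x + u) '' interior K :=
    pack_interior_tr K u
  rw [h4, Set.disjoint_left] at h3
  exact h3 hx ⟨x - u, hxu, by simp⟩

theorem ratio_le {K : Set V} (hK : IsCompact K) {b : Fin 3 → V} (hP : Packs K b) :
    volume K / ENNReal.ofReal |dt b| ≤ deltaL K := by
  have : dens K b ≤ deltaL K := le_iSup₂ (f := fun b (_ : Packs K b) => dens K b) b hP
  rwa [dens_eq b hP.1 K hK] at this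

theorem e1849 : (18 / 49 : ℝ≥0∞) = ENNReal.ofReal (18 / 49) := by
  rw [ENNReal.ofReal_div_of_pos (by norm_num)]
  norm_num

theorem le_of_vol {K : Set V} {v d : ℝ} (hd : 0 < d) (hv : ENNReal.ofReal v ≤ volume K)
    (hvd : 18 / 49 * d ≤ v) : 18 / 49 ≤ volume K / ENNReal.ofReal d := by
  refine le_trans ?_ (ENNReal.div_le_div_right hv _)
  rw [← ENNReal.ofReal_div_of_pos hd, e1849]
  apply ENNReal.ofReal_le_ofReal
  rwa [le_div_iff₀ hd]

theorem lt_of_vol {K : Set V} {v d : ℝ} (hd : 0 < d) (hv : ENNReal.ofReal v ≤ volume K)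
    (hvd : 18 / 49 * d < v) : 18 / 49 < volume K / ENNReal.ofReal d := by
  refine lt_of_lt_of_le ?_ (ENNReal.div_le_div_right hv _)
  rw [← ENNReal.ofReal_div_of_pos hd, e1849]
  have h1 : 18 / 49 < v / d := by rwa [lt_div_iff₀ hd]
  exact (ENNReal.ofReal_lt_ofReal_iff (lt_trans (by norm_num) h1)).mpr h1

theorem norm_bound (hAA : S_AA) (hBB : S_BB) (hDET : S_DET) (hINQ : S_INQ) (hCON : S_CON)
    (hVOL : S_VOL) (hDIS : S_DIS) {K : Set V} (hK : IsCompact K) (hc : Convex ℝ K)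
    {P : Fin 3 → V} {r : V} (h : NF K P r) (h21 : r 2 ≤ r 1) (h10 : r 1 ≤ r 0) :
    18 / 49 ≤ deltaL K ∧ (0 < r 0 → 18 / 49 < deltaL K) := by
  have hv := hVOL K hc h.zero h.unit P r h.r0 h.diag h.pos h.mem
  have r00 := h.r0 0
  have r10 := h.r0 1
  have r20 := h.r0 2
  have r01 := h.r1 0
  have r11 := h.r1 1
  have r21 := h.r1 2
  have hdA : 0 < dA r := by
    unfold dA
    have h1 := mul_nonneg r00 r20
    have h2 := mul_nonneg r10 r20
    nlinarith
  have hcB : 0 < cB r := by unfold cB; linarith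
  have hdB : 0 < dB r := by
    unfold dB
    have := mul_pos (show 0 < 1 + r 2 by linarith) hcB
    linarith
  obtain ⟨hA, hB⟩ := hDET r
  have eA : |dt ![uA r, vA r, qA r]| = dA r := by
    rw [← abs_of_pos hdA]; exact hA
  have eB : |dt ![uB r, vB r, qB r]| = dB r := by
    rw [← abs_of_pos hdB]; exact hB
  have nA : dt ![uA r, vA r, qA r] ≠ 0 := by
    intro h0
    rw [h0, abs_zero] at eA
    exact hdA.ne eA
  have nB : dt ![uB r, vB r, qB r] ≠ 0 := by
    intro h0
    rw [h0, abs_zero] at eB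
    exact hdB.ne eB
  have pA : Packs K ![uA r, vA r, qA r] := packs_of hDIS h _ nA (hAA r h.r0 h.r1)
  have pB : Packs K ![uB r, vB r, qB r] :=
    packs_of hDIS h _ nB (hBB r h.r0 h.r1 h21 (h21.trans h10))
  have gA := ratio_le hK pA
  have gB := ratio_le hK pB
  rw [eA] at gA
  rw [eB] at gB
  have hstrict : 0 < r 0 → 18 / 49 < deltaL K := by
    intro hr
    have hcon := hCON P r h.sum h.abs h.diag h.r0 h.det h21 h10
    rcases hINQ r r20 h21 h10 r01 hcon hr with hlt | hlt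
    · exact lt_of_lt_of_le (lt_of_vol hdA hv (by linarith)) gA
    · exact lt_of_lt_of_le (lt_of_vol hdB hv (by linarith)) gB
  refine ⟨?_, hstrict⟩
  rcases r00.eq_or_lt with h0 | h0
  · have z0 : r 0 = 0 := h0.symm
    have z1 : r 1 = 0 := le_antisymm (by linarith) r10
    have z2 : r 2 = 0 := le_antisymm (by linarith) r20
    refine le_trans (le_of_vol hdA hv ?_) gA
    unfold dA
    rw [z0, z1, z2]
    norm_num
  · exact (hstrict h0).le

/-- `K` is a cone over a planar convex body: the convex hull of a compact convex subset `S` of a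
plane and of a point `a` outside that plane, with nonempty interior -/
def IsCone (K : Set V) : Prop :=
  ∃ (a : V) (S : Set V) (f : V →ₗ[ℝ] ℝ) (c : ℝ), IsCompact S ∧ Convex ℝ S ∧ (∀ x ∈ S, f x = c) ∧
    f a ≠ c ∧ K = convexHull ℝ (insert a S) ∧ (interior K).Nonempty

theorem isCompact_cone {a : V} {S : Set V} (hS : IsCompact S) (hc : Convex ℝ S) :
    IsCompact (convexHull ℝ (insert a S)) := by
  rcases S.eq_empty_or_nonempty with rfl | hne
  · simp
  · rw [convexHull_insert hne, hc.convexHull_eq]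
    have h1 : convexJoin ℝ {a} S = (fun p : ℝ × V => (1 - p.1) • a + p.1 • p.2) ''
        (Set.Icc 0 1 ×ˢ S) := by
      ext x
      rw [convexJoin_singleton_left]
      simp only [Set.mem_iUnion, segment_eq_image, Set.mem_image, Set.mem_prod, Prod.exists]
      constructor
      · rintro ⟨y, hy, θ, hθ, rfl⟩
        exact ⟨θ, y, ⟨hθ, hy⟩, rfl⟩
      · rintro ⟨θ, y, ⟨hθ, hy⟩, rfl⟩
        exact ⟨y, hy, θ, hθ, rfl⟩
    rw [h1]
    apply (isCompact_Icc.prod hS).image
    fun_prop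

theorem cone_main (hAA : S_AA) (hBB : S_BB) (hDET : S_DET) (hINQ : S_INQ) (hCON : S_CON)
    (hVOL : S_VOL) (hDIS : S_DIS) {K : Set V} (hK : IsCone K) :
    18 / 49 ≤ deltaL K ∧ (deltaL K = 18 / 49 ↔
      ∃ p : Fin 4 → V, AffineIndependent ℝ p ∧ K = convexHull ℝ (Set.range p)) := by
  obtain ⟨a, S, f, c, hS, hSc, hf, ha, rfl, hint⟩ := hK
  obtain ⟨L, t, P, r, hNF, htet⟩ := exists_nf hS hf ha hint
  have hcpt := isCompact_cone (a := a) hS hSc
  set σ : Equiv.Perm (Fin 3) := Tuple.sort (fun i => -r i) with hσ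
  have hmono := Tuple.monotone_sort (fun i => -r i)
  have h10 : r (σ 1) ≤ r (σ 0) := by
    have := hmono (show (0 : Fin 3) ≤ 1 by decide)
    simp only [Function.comp_apply, neg_le_neg_iff] at this
    exact this
  have h21 : r (σ 2) ≤ r (σ 1) := by
    have := hmono (show (1 : Fin 3) ≤ 2 by decide)
    simp only [Function.comp_apply, neg_le_neg_iff] at this
    exact this
  have hNF' := hNF.perm σ
  let M : V ≃ₗ[ℝ] V := L.trans (LinearEquiv.funCongrLeft ℝ ℝ σ)
  have hM : (fun x : V => (x ∘ σ : V)) '' ((fun x => L x + t) '' convexHull ℝ (insert a S))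
      = (fun x => M x + (t ∘ σ : V)) '' convexHull ℝ (insert a S) := by
    rw [Set.image_image]
    apply Set.image_congr
    intro x _
    funext n
    rfl
  rw [hM] at hNF'
  have hcont : Continuous (fun x : V => M x + (t ∘ σ : V)) :=
    (LinearMap.continuous_of_finiteDimensional (M : V →ₗ[ℝ] V)).add continuous_const
  have hcpt' : IsCompact ((fun x => M x + (t ∘ σ : V)) '' convexHull ℝ (insert a S)) :=
    hcpt.image hcont
  have hconv' : Convex ℝ ((fun x => M x + (t ∘ σ : V)) '' convexHull ℝ (insert a S)) := by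
    have h1 := ((convex_convexHull ℝ (insert a S)).linear_image (M : V →ₗ[ℝ] V)).translate
      (t ∘ σ : V)
    have h2 : (fun x => M x + (t ∘ σ : V)) '' convexHull ℝ (insert a S) =
        (fun y => (t ∘ σ : V) + y) '' ((M : V →ₗ[ℝ] V) '' convexHull ℝ (insert a S)) := by
      rw [Set.image_image]
      apply Set.image_congr
      intro x _
      exact add_comm _ _
    rw [h2]
    exact h1
  obtain ⟨hle, hlt⟩ := norm_bound hAA hBB hDET hINQ hCON hVOL hDIS hcpt' hconv' hNF' h21 h10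
  rw [deltaL_image hcpt] at hle hlt
  refine ⟨hle, ?_, ?_⟩
  · intro heq
    apply htet
    have h0 : r (σ 0) = 0 := by
      have h1 : ¬ (0 < (r ∘ σ) 0) := fun h2 => (hlt h2).ne heq.symm
      exact le_antisymm (not_lt.mp h1) (hNF.r0 _)
    intro n
    have h1 : r (σ 1) = 0 := le_antisymm (by linarith) (hNF.r0 _)
    have h2 : r (σ 2) = 0 := le_antisymm (by linarith) (hNF.r0 _)
    have h3 : ∀ m, r (σ m) = 0 := by
      intro m
      fin_cases m
      · exact h0
      · exact h1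
      · exact h2
    have := h3 (σ.symm n)
    rwa [Equiv.apply_symm_apply] at this
  · rintro ⟨p, hp, he⟩
    rw [he, deltaL_tetra p hp]

end Pool.Agent.N334.CN
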