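import Pool.Agent.N334.CN.Stm
import Pool.Agent.H349R2.Tet.Pack

/-!
# Normal form of a cone over a planar convex body
-/

set_option autoImplicit false

namespace Pool.Agent.N334.CN

open MeasureTheory Pool.Agent.H349R2.Tet

/-- three points of `S` spanning with `a` a simplex of positive volume -/
theorem exists_det {a : V} {S : Set V} (hint : (interior (convexHull ℝ (insert a S))).Nonempty) :
    ∃ v : Fin 3 → V, (∀ i, v i ∈ S) ∧ dt (fun i => v i - a) ≠ 0 := by
  classical
  set W : Submodule ℝ V := Submodule.span ℝ ((fun x => x - a) '' S) with hW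
  have hsub : ∀ x ∈ convexHull ℝ (insert a S), x - a ∈ W := by
    intro x hx
    have hconv : Convex ℝ {x : V | x - a ∈ W} := by
      intro x hx y hy p q _ _ hpq
      have e : p • x + q • y - a = p • (x - a) + q • (y - a) := by
        have : a = (p + q) • a := by rw [hpq, one_smul]
        conv_lhs => rw [this]
        simp only [smul_sub, add_smul]
        abel
      show p • x + q • y - a ∈ W
      rw [e]
      exact W.add_mem (W.smul_mem p hx) (W.smul_mem q hy)
    refine convexHull_min ?_ hconv hx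
    rintro y (rfl | hy)
    · show y - y ∈ W
      rw [sub_self]
      exact W.zero_mem
    · exact Submodule.subset_span ⟨y, hy, rfl⟩
  have hWtop : W = ⊤ := by
    obtain ⟨x, hx⟩ := hint
    rw [mem_interior_iff_mem_nhds] at hx
    rw [eq_top_iff]
    intro w _
    have ht : Filter.Tendsto (fun ε : ℝ => x + ε • w) (nhds 0) (nhds x) := by
      have hc : Continuous (fun ε : ℝ => x + ε • w) := by fun_prop
      have := hc.tendsto 0
      simpa using this
    have h1 : ∀ᶠ ε : ℝ in nhdsWithin 0 (Set.Ioi 0), x + ε • w ∈ convexHull ℝ (insert a S) :=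
      (ht.eventually hx).filter_mono nhdsWithin_le_nhds
    obtain ⟨ε, h2, h3⟩ := (h1.and self_mem_nhdsWithin).exists
    have h4 : (0 : ℝ) < ε := h3
    have h5 := hsub _ h2
    have h6 := hsub x (mem_of_mem_nhds hx)
    have h7 : ε • w ∈ W := by
      have := W.sub_mem h5 h6
      have e : x + ε • w - a - (x - a) = ε • w := by abel
      rwa [e] at this
    have h8 := W.smul_mem ε⁻¹ h7
    rwa [smul_smul, inv_mul_cancel₀ h4.ne', one_smul] at h8
  obtain ⟨b, hbS, hbspan, hbli⟩ := exists_linearIndependent ℝ ((fun x => x - a) '' S)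
  have hbtop : ⊤ ≤ Submodule.span ℝ (Set.range ((↑) : b → V)) := by
    rw [Subtype.range_coe, hbspan, ← hW, hWtop]
  let B : Module.Basis b ℝ V := Module.Basis.mk hbli hbtop
  have : Fintype b := hbli.setFinite.fintype
  have hcard : Fintype.card b = 3 := by
    have := Module.finrank_eq_card_basis B
    rw [← this]
    simp
  let e : b ≃ Fin 3 := Fintype.equivFinOfCardEq hcard
  choose g hg1 hg2 using fun i : Fin 3 => hbS (e.symm i).2
  refine ⟨g, hg1, ?_⟩
  rw [dt_ne_zero_iff]
  have e1 : (fun i => g i - a) = ((↑) : b → V) ∘ e.symm := by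
    funext i
    exact hg2 i
  rw [e1]
  exact hbli.comp _ e.symm.injective

theorem exists_max {a : V} {S : Set V} (hS : IsCompact S)
    (hint : (interior (convexHull ℝ (insert a S))).Nonempty) :
    ∃ v : Fin 3 → V, (∀ i, v i ∈ S) ∧ dt (fun i => v i - a) ≠ 0 ∧
      ∀ w : Fin 3 → V, (∀ i, w i ∈ S) → |dt (fun i => w i - a)| ≤ |dt (fun i => v i - a)| := by
  obtain ⟨v0, hv0, hd0⟩ := exists_det hint
  have hcomp : IsCompact (Set.univ.pi fun _ : Fin 3 => S) := isCompact_univ_pi fun _ => hS
  have hcont : Continuous (fun w : Fin 3 → V => |dt (fun i => w i - a)|) := by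
    apply Continuous.abs
    unfold dt
    apply Continuous.matrix_det
    apply continuous_pi
    intro i
    exact (continuous_apply i).sub continuous_const
  obtain ⟨v, hv, hmax⟩ := hcomp.exists_isMaxOn ⟨v0, fun i _ => hv0 i⟩ hcont.continuousOn
  refine ⟨v, fun i => hv i trivial, ?_, fun w hw => hmax (fun i _ => hw i)⟩
  intro h0
  have h1 : |dt (fun i => v0 i - a)| ≤ |dt (fun i => v i - a)| := hmax (fun i _ => hv0 i)
  rw [h0, abs_zero] at h1
  exact hd0 (abs_nonpos_iff.mp h1)

/-- the normal form of a cone -/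
structure NF (K : Set V) (P : Fin 3 → V) (r : V) : Prop where
  r0 : ∀ n, 0 ≤ r n
  r1 : ∀ n, r n ≤ 1
  mem : ∀ n, P n ∈ K
  unit : ∀ n, (Pi.single n 1 : V) ∈ K
  sum : ∀ n, P n 0 + P n 1 + P n 2 = 1
  abs : ∀ n m, |P n m| ≤ 1
  diag : ∀ n, P n n = - r n
  pos : ∀ n m, m ≠ n → 0 ≤ P n m
  det : |Matrix.det P| ≤ 1
  cone : ∀ x ∈ K, 0 ≤ x 0 + x 1 + x 2 ∧ x 0 + x 1 + x 2 ≤ 1 ∧
    ∀ n, -(r n * (x 0 + x 1 + x 2)) ≤ x n ∧ x n ≤ x 0 + x 1 + x 2
  zero : (0 : V) ∈ K

theorem convex_coneSet (L : V ≃ₗ[ℝ] V) (t r : V) :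
    Convex ℝ {x : V | 0 ≤ (L x + t) 0 + (L x + t) 1 + (L x + t) 2 ∧
      (L x + t) 0 + (L x + t) 1 + (L x + t) 2 ≤ 1 ∧
      ∀ n, -(r n * ((L x + t) 0 + (L x + t) 1 + (L x + t) 2)) ≤ (L x + t) n ∧
        (L x + t) n ≤ (L x + t) 0 + (L x + t) 1 + (L x + t) 2} := by
  intro x hx y hy p q hp hq hpq
  obtain ⟨x1, x2, x3⟩ := hx
  obtain ⟨y1, y2, y3⟩ := hy
  have e : ∀ n, (L (p • x + q • y) + t) n = p * (L x + t) n + q * (L y + t) n := by
    intro n
    have ht : t n = (p + q) * t n := by rw [hpq, one_mul]
    simp only [map_add, map_smul, Pi.add_apply, Pi.smul_apply, smul_eq_mul]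
    linear_combination ht
  refine ⟨?_, ?_, ?_⟩
  · rw [e, e, e]
    have h1 := mul_nonneg hp x1
    have h2 := mul_nonneg hq y1
    linarith
  · rw [e, e, e]
    have h1 := mul_le_mul_of_nonneg_left x2 hp
    have h2 := mul_le_mul_of_nonneg_left y2 hq
    linarith
  · intro n
    rw [e, e, e, e]
    have h1 := mul_le_mul_of_nonneg_left (x3 n).1 hp
    have h2 := mul_le_mul_of_nonneg_left (y3 n).1 hq
    have h3 := mul_le_mul_of_nonneg_left (x3 n).2 hp
    have h4 := mul_le_mul_of_nonneg_left (y3 n).2 hq
    constructor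
    · linarith
    · linarith

theorem pos_gen (y : V) (n m : Fin 3) (hmn : m ≠ n) (hs : y 0 + y 1 + y 2 = 1) (hn : y n ≤ 0)
    (hk : ∀ k, y k ≤ 1) : 0 ≤ y m := by
  have h0 := hk 0
  have h1 := hk 1
  have h2 := hk 2
  fin_cases n <;> fin_cases m <;> simp at hmn hn ⊢ <;> linarith

theorem exists_nf {a : V} {S : Set V} {f : V →ₗ[ℝ] ℝ} {c : ℝ} (hS : IsCompact S)
    (hf : ∀ x ∈ S, f x = c) (ha : f a ≠ c)
    (hint : (interior (convexHull ℝ (insert a S))).Nonempty) :
    ∃ (L : V ≃ₗ[ℝ] V) (t : V) (P : Fin 3 → V) (r : V),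
      NF ((fun x => L x + t) '' convexHull ℝ (insert a S)) P r ∧
      ((∀ n, r n = 0) → ∃ p : Fin 4 → V, AffineIndependent ℝ p ∧
        convexHull ℝ (insert a S) = convexHull ℝ (Set.range p)) := by
  classical
  obtain ⟨v, hvS, hD, hmax⟩ := exists_max hS hint
  have hli : LinearIndependent ℝ (fun i => v i - a) := (dt_ne_zero_iff _).mp hD
  have hcard : Fintype.card (Fin 3) = Module.finrank ℝ V := by simp
  set B := basisOfLinearIndependentOfCardEqFinrank hli hcard with hB
  have hBi : ∀ i, B i = v i - a := by intro i; simp [hB]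
  obtain ⟨L, hL⟩ : ∃ L : V ≃ₗ[ℝ] V, L = B.equivFun := ⟨_, rfl⟩
  have hrep : ∀ x : V, ∑ i, L x i • (v i - a) = x := by
    intro x
    have := B.sum_equivFun x
    simp only [hBi] at this
    rw [hL]
    exact this
  have hLv : ∀ i, L (v i - a) = Pi.single i 1 := by
    intro i
    funext j
    rw [← hBi i, hL, Module.Basis.equivFun_self, Pi.single_apply]
    simp only [eq_comm]
  have hsum : ∀ x ∈ S, L (x - a) 0 + L (x - a) 1 + L (x - a) 2 = 1 := by
    intro x hx
    have h1 : f (∑ i, L (x - a) i • (v i - a)) = f (x - a) := congrArg f (hrep (x - a))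
    rw [Fin.sum_univ_three, f.map_add, f.map_add, f.map_smul, f.map_smul, f.map_smul,
      f.map_sub (v 0) a, f.map_sub (v 1) a, f.map_sub (v 2) a, f.map_sub x a, hf _ (hvS 0),
      hf _ (hvS 1), hf _ (hvS 2), hf x hx, smul_eq_mul, smul_eq_mul, smul_eq_mul] at h1
    have h2 : c - f a ≠ 0 := sub_ne_zero.mpr (Ne.symm ha)
    have h3 : (c - f a) * (L (x - a) 0 + L (x - a) 1 + L (x - a) 2) = (c - f a) * 1 := by
      linear_combination h1
    exact mul_left_cancel₀ h2 h3
  have hdet : ∀ w : Fin 3 → V, (∀ i, w i ∈ S) → |Matrix.det (fun i => L (w i - a))| ≤ 1 := by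
    intro w hw
    have h1 : Matrix.of (fun i => w i - a) =
        Matrix.of (fun i => L (w i - a)) * Matrix.of (fun i => v i - a) := by
      ext i k
      rw [Matrix.mul_apply, Matrix.of_apply]
      have := congrFun (hrep (w i - a)) k
      rw [← this]
      simp only [Finset.sum_apply, Pi.smul_apply, smul_eq_mul, Matrix.of_apply]
    have h2 := hmax w hw
    unfold dt at h2 hD
    rw [h1, Matrix.det_mul, abs_mul] at h2
    have h3 : 0 < |(Matrix.of fun i => v i - a).det| := abs_pos.mpr hD
    have h4 : |(Matrix.of fun i => L (w i - a)).det| ≤ 1 := by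
      by_contra h5
      push Not at h5
      nlinarith
    exact h4
  have hne : S.Nonempty := ⟨v 0, hvS 0⟩
  have habs : ∀ x ∈ S, ∀ n, |L (x - a) n| ≤ 1 := by
    intro x hx n
    have h1 := hdet (Function.update v n x) (by
      intro i
      by_cases hi : i = n
      · subst hi; simpa using hx
      · simpa [Function.update_of_ne hi] using hvS i)
    have h2 : Matrix.det (fun i => L (Function.update v n x i - a)) = L (x - a) n := by
      fin_cases n
      · rw [Matrix.det_fin_three]
        simp [Function.update, hLv, Pi.single_apply]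
      · rw [Matrix.det_fin_three]
        simp [Function.update, hLv, Pi.single_apply]
      · rw [Matrix.det_fin_three]
        simp [Function.update, hLv, Pi.single_apply]
    rwa [h2] at h1
  have hcont : ∀ n : Fin 3, Continuous (fun x : V => L (x - a) n) := by
    intro n
    have h1 : Continuous (fun x : V => L x) :=
      LinearMap.continuous_of_finiteDimensional (L : V →ₗ[ℝ] V)
    exact (continuous_apply n).comp (h1.comp (continuous_id.sub continuous_const))
  choose w hwS hwmin using fun n : Fin 3 => hS.exists_isMinOn hne (hcont n).continuousOn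
  have hmin : ∀ n, ∀ x ∈ S, L (w n - a) n ≤ L (x - a) n := fun n x hx => hwmin n hx
  have hmem : ∀ x ∈ S, L (x - a) ∈ (fun x => L x + -(L a)) '' convexHull ℝ (insert a S) := by
    intro x hx
    refine ⟨x, subset_convexHull ℝ _ (Set.mem_insert_of_mem _ hx), ?_⟩
    simp only [map_sub]
    abel
  have hr0 : ∀ n, L (w n - a) n ≤ 0 := by
    intro n
    have h1 : ∃ m : Fin 3, m ≠ n := exists_ne n
    obtain ⟨m, hm⟩ := h1
    have h2 := hmin n (v m) (hvS m)
    rw [hLv m, Pi.single_apply, if_neg (Ne.symm hm)] at h2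
    exact h2
  refine ⟨L, -(L a), fun n => L (w n - a), fun n => -(L (w n - a) n), ?_, ?_⟩
  · refine
      { r0 := fun n => by have := hr0 n; linarith
        r1 := fun n => by
          have := (abs_le.mp (habs _ (hwS n) n)).1
          linarith
        mem := fun n => hmem _ (hwS n)
        unit := fun n => by rw [← hLv n]; exact hmem _ (hvS n)
        sum := fun n => hsum _ (hwS n)
        abs := fun n m => habs _ (hwS n) m
        diag := fun n => by ring
        pos := ?_
        det := hdet w hwS
        cone := ?_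
        zero := ⟨a, subset_convexHull ℝ _ (Set.mem_insert _ _), by simp⟩ }
    · intro n m hmn
      exact pos_gen (L (w n - a)) n m hmn (hsum _ (hwS n)) (hr0 n)
        (fun k => (abs_le.mp (habs _ (hwS n) k)).2)
    · rintro _ ⟨x, hx, rfl⟩
      have hC := convexHull_min (s := insert a S) ?_
        (convex_coneSet L (-(L a)) (fun n => -(L (w n - a) n))) hx
      · exact hC
      · rintro y (rfl | hy)
        · simp
        · have e1 : L y + -(L a) = L (y - a) := by rw [map_sub]; abel
          show 0 ≤ (L y + -(L a)) 0 + (L y + -(L a)) 1 + (L y + -(L a)) 2 ∧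
            (L y + -(L a)) 0 + (L y + -(L a)) 1 + (L y + -(L a)) 2 ≤ 1 ∧
            ∀ n, -((-(L (w n - a) n)) * ((L y + -(L a)) 0 + (L y + -(L a)) 1 + (L y + -(L a)) 2))
              ≤ (L y + -(L a)) n ∧
              (L y + -(L a)) n ≤ (L y + -(L a)) 0 + (L y + -(L a)) 1 + (L y + -(L a)) 2
          rw [e1, hsum y hy]
          refine ⟨zero_le_one, le_rfl, fun n => ⟨?_, ?_⟩⟩
          · have := hmin n y hy
            linarith
          · exact (abs_le.mp (habs y hy n)).2
  · intro hr
    have hnn : ∀ x ∈ S, ∀ n, 0 ≤ L (x - a) n := by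
      intro x hx n
      have h1 := hmin n x hx
      have h2 := hr n
      simp only [neg_eq_zero] at h2
      linarith
    refine ⟨Fin.cons a v, ?_, ?_⟩
    · rw [affineIndependent_iff_linearIndependent_vsub ℝ _ (0 : Fin 4)]
      rw [← linearIndependent_equiv (finSuccAboveEquiv (0 : Fin 4))]
      have e1 : (fun i : {x : Fin 4 // x ≠ 0} => (Fin.cons a v : Fin 4 → V) i -ᵥ
          (Fin.cons a v : Fin 4 → V) 0) ∘ (finSuccAboveEquiv (0 : Fin 4))
          = fun i => v i - a := by
        funext i
        simp [finSuccAboveEquiv]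
      rw [e1]
      exact hli
    · apply Set.Subset.antisymm
      · apply convexHull_min _ (convex_convexHull ℝ _)
        rintro x (rfl | hx)
        · exact subset_convexHull ℝ _ ⟨0, rfl⟩
        · have h1 := hrep (x - a)
          have h2 := hsum x hx
          have h3 : x = ∑ i, L (x - a) i • v i := by
            have h4 : ∑ i, L (x - a) i • v i = ∑ i, L (x - a) i • (v i - a) +
                (L (x - a) 0 + L (x - a) 1 + L (x - a) 2) • a := by
              simp only [Fin.sum_univ_three, smul_sub, add_smul]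
              abel
            rw [h4, h1, h2, one_smul]
            abel
          rw [h3]
          refine (convex_convexHull ℝ _).sum_mem (fun i _ => hnn x hx i) ?_
            (fun i _ => subset_convexHull ℝ _ ⟨i.succ, by simp⟩)
          rw [Fin.sum_univ_three]
          exact h2
      · apply convexHull_mono
        rintro _ ⟨i, rfl⟩
        refine Fin.cases ?_ (fun j => ?_) i
        · exact Set.mem_insert _ _
        · exact Set.mem_insert_of_mem _ (by simpa using hvS j)

end Pool.Agent.N334.CN
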