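import Mathlib

/-!
# Lattice packings of cones over planar convex bodies: statements
-/

set_option autoImplicit false

namespace Pool.Agent.N334.CN

open MeasureTheory

abbrev V := Fin 3 → ℝ

noncomputable def uA (r : V) : V := ![2 / 3 + r 0, -(1 / 2) - r 0 + r 2 / 3, -(1 / 2) - r 2 / 3]
noncomputable def vA (r : V) : V := ![-(1 / 2) - r 1, 2 / 3 + r 1, -(1 / 2)]
noncomputable def qA (r : V) : V := ![-(1 / 2) - r 0 + r 1 / 3 - 2 * r 2 / 3, -(1 / 2) + r 0 - r 1 / 3 - r 2 / 3,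
  2 / 3 + r 2]

noncomputable def cB (r : V) : ℝ := 1 + 3 / 4 * (r 0 + r 1) - r 2 / 2
noncomputable def uB (r : V) : V := ![-(cB r), cB r, 0]
noncomputable def vB (r : V) : V := ![-(1 + r 2) + 3 / 2 * (1 + r 1), -(3 / 2 * (1 + r 1)), 1 + r 2]
noncomputable def qB (r : V) : V := ![-(1 / 2) + r 0 / 4 + r 2 / 2 - 3 * r 1 / 4, 1 / 2 + r 1,
  -(1 / 2) - r 0 / 4 - r 2 / 2 - r 1 / 4]

/-- the vector `D` with `t = - (D 0 + D 1 + D 2) ≥ 0` satisfies one of seven inequalities -/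
def Sep (r D : V) : Prop :=
  0 ≤ -(D 0 + D 1 + D 2) ∧ (1 ≤ -(D 0 + D 1 + D 2) ∨
    ∃ n : Fin 3, 1 + r n ≤ D n + -(D 0 + D 1 + D 2) ∨ 1 + r n ≤ -D n + r n * -(D 0 + D 1 + D 2))

def Out (r D : V) : Prop := Sep r D ∨ Sep r (-D)

/-- first lattice -/
def S_AA : Prop := ∀ r : V, (∀ n, 0 ≤ r n) → (∀ n, r n ≤ 1) → ∀ i j k : ℤ,
  ¬ (i = 0 ∧ j = 0 ∧ k = 0) →
  Out r (fun n => (i : ℝ) * uA r n + (j : ℝ) * vA r n + (k : ℝ) * qA r n)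

/-- second lattice -/
def S_BB : Prop := ∀ r : V, (∀ n, 0 ≤ r n) → (∀ n, r n ≤ 1) → r 2 ≤ r 1 → r 2 ≤ r 0 →
  ∀ i j k : ℤ, ¬ (i = 0 ∧ j = 0 ∧ k = 0) →
  Out r (fun n => (i : ℝ) * uB r n + (j : ℝ) * vB r n + (k : ℝ) * qB r n)

/-- the two determinants -/
noncomputable def dA (r : V) : ℝ := 49 / 108 + 7 / 18 * (r 0 + r 1 + r 2) + 2 / 9 * r 0 * r 2 +
  13 / 27 * r 1 * r 2 - 2 / 27 * r 2 ^ 2
noncomputable def dB (r : V) : ℝ := (1 + r 2) * cB r / 2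

def S_DET : Prop := ∀ r : V, |Matrix.det ![uA r, vA r, qA r]| = |dA r| ∧
  |Matrix.det ![uB r, vB r, qB r]| = |dB r|

def S_INQ : Prop := ∀ r : V, 0 ≤ r 2 → r 2 ≤ r 1 → r 1 ≤ r 0 → r 0 ≤ 1 →
  (1 + r 0) * (r 1 + r 2) ≤ 1 → 0 < r 0 →
  dA r < 49 / 108 * (1 + r 0 + r 1 + r 2) ∨ dB r < 49 / 108 * (1 + r 0 + r 1 + r 2)

/-- three points of the plane `x 0 + x 1 + x 2 = 1` with small determinant -/
def S_CON : Prop := ∀ (P : Fin 3 → V) (r : V), (∀ n, P n 0 + P n 1 + P n 2 = 1) →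
  (∀ n m, |P n m| ≤ 1) → (∀ n, P n n = -r n) → (∀ n, 0 ≤ r n) → |Matrix.det P| ≤ 1 →
  r 2 ≤ r 1 → r 1 ≤ r 0 → (1 + r 0) * (r 1 + r 2) ≤ 1

/-- volume -/
def S_VOL : Prop := ∀ (K : Set V), Convex ℝ K → (0 : V) ∈ K →
  (∀ n : Fin 3, (Pi.single n 1 : V) ∈ K) → ∀ (P : Fin 3 → V) (r : V), (∀ n, 0 ≤ r n) →
  (∀ n, P n n = -r n) → (∀ n m, m ≠ n → 0 ≤ P n m) → (∀ n, P n ∈ K) →
  ENNReal.ofReal ((1 + r 0 + r 1 + r 2) / 6) ≤ volume K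

/-- disjointness -/
def S_DIS : Prop := ∀ (K : Set V) (r : V), (∀ n, 0 ≤ r n) → (∀ x ∈ K, 0 ≤ x 0 + x 1 + x 2 ∧
  x 0 + x 1 + x 2 ≤ 1 ∧ ∀ n, -(r n * (x 0 + x 1 + x 2)) ≤ x n ∧ x n ≤ x 0 + x 1 + x 2) →
  ∀ D : V, Out r D → Disjoint (interior K) (interior ((fun x => x + D) '' K))

end Pool.Agent.N334.CN
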